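import Pool.Agent.Helper64.XI.Line
import Pool.Agent.Helper28.HN.Cfg

/-!
The affine coordinates of the point with the coordinate `w` of the line over `x` and their
derivative (project XN, MP_9410e4).
-/

set_option autoImplicit false

namespace Pool.Agent.Helper57.XA

open Pool.Agent.Helper28.HN Pool.Agent.Helper24.HN Pool.Agent.Helper64.XI Filter Topology

variable {p : ℕ} [Fact p.Prime] {m : ℕ}

/-- The affine coordinates of the point with the coordinate `w` of the line over `x`. -/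
noncomputable def Yc (c : Ix m → ℤ_[p]) (w : ℤ_[p]) (x : V p (m + 1)) : Fin m → ℚ_[p] :=
  fun s => ((yh c (aff x) w s.succ.succ : ℤ_[p]) : ℚ_[p]) /
    (((Mx c (aff x)).det : ℤ_[p]) : ℚ_[p])

/-- The same point, all coordinates. -/
noncomputable def yv (c : Ix m → ℤ_[p]) (w : ℤ_[p]) (x : V p (m + 1)) : I m → ℚ_[p] :=
  Fin.cons 1 (Fin.cons (w : ℚ_[p]) (Yc c w x))

theorem cne {a : ℤ_[p]} (h : a ≠ 0) : (a : ℚ_[p]) ≠ 0 := fun h0 => h (Subtype.ext h0)

theorem cp_lf (c : Ix m → ℤ_[p]) (r : Fin m) (x y : I m → ℤ_[p]) :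
    lf (cp c) r (cp x) (cp y) = ((lf c r x y : ℤ_[p]) : ℚ_[p]) := by
  have : ((lf c r x y : ℤ_[p]) : ℚ_[p]) = PadicInt.Coe.ringHom (lf c r x y) := rfl
  rw [this]
  simp only [lf, map_sum, map_mul]
  rfl

theorem cp_single (j : I m) : (cp (Pi.single j 1 : I m → ℤ_[p])) = Pi.single j 1 := by
  funext i
  by_cases h : i = j
  · subst h; simp [cp]
  · simp [cp, h]

theorem cp_Mx (c : Ix m → ℤ_[p]) (x : I m → ℤ_[p]) :
    Mx (cp c) (cp x) = (Mx c x).map (PadicInt.Coe.ringHom (p := p)) := by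
  ext r b
  change lf (cp c) r (cp x) (Pi.single b.succ.succ 1) = _
  rw [← cp_single, cp_lf]
  rfl

theorem cp_Nx (c : Ix m → ℤ_[p]) (y : I m → ℤ_[p]) :
    Nx (cp c) (cp y) = (Nx c y).map (PadicInt.Coe.ringHom (p := p)) := by
  ext r b
  change lf (cp c) r (Pi.single b.castSucc.succ 1) (cp y) = _
  rw [← cp_single, cp_lf]
  rfl

theorem det_cp_Mx (c : Ix m → ℤ_[p]) (x : I m → ℤ_[p]) :
    (Mx (cp c) (cp x)).det = (((Mx c x).det : ℤ_[p]) : ℚ_[p]) := by
  rw [cp_Mx]
  exact (RingHom.map_det _ _).symm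

theorem det_cp_Nx (c : Ix m → ℤ_[p]) (y : I m → ℤ_[p]) :
    (Nx (cp c) (cp y)).det = (((Nx c y).det : ℤ_[p]) : ℚ_[p]) := by
  rw [cp_Nx]
  exact (RingHom.map_det _ _).symm

theorem yh_yv (c : Ix m → ℤ_[p]) (w : ℤ_[p]) (x : V p (m + 1)) (hD : (Mx c (aff x)).det ≠ 0) :
    cp (yh c (aff x) w) = fun i => (((Mx c (aff x)).det : ℤ_[p]) : ℚ_[p]) * yv c w x i := by
  have hD' : (((Mx c (aff x)).det : ℤ_[p]) : ℚ_[p]) ≠ 0 := cne hD
  funext i
  refine Fin.cases ?_ (fun i => ?_) i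
  · simp [cp, yv]
  refine Fin.cases ?_ (fun i => ?_) i
  · have h : yh c (aff x) w (Fin.succ (0 : Fin (m + 1))) = w * (Mx c (aff x)).det :=
      yh_one c (aff x) w
    simp only [cp, yv, h, Fin.cons_succ, Fin.cons_zero]
    push_cast
    ring
  · simp only [cp, yv, Fin.cons_succ, Yc]
    field_simp

/-- The projective point is a multiple of the affine point. -/
theorem yh_eq' (c : Ix m → ℤ_[p]) (w : ℤ_[p]) (x : V p (m + 1)) (hD : (Mx c (aff x)).det ≠ 0) :
    cp (yh c (aff x) w) = (((Mx c (aff x)).det : ℤ_[p]) : ℚ_[p]) •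
      (Fin.cons 1 (Fin.cons (w : ℚ_[p]) (Yc c w x)) : I m → ℚ_[p]) := by
  rw [yh_yv c w x hD]
  rfl

theorem lf_yv (c : Ix m → ℤ_[p]) (w : ℤ_[p]) (x : V p (m + 1)) (hD : (Mx c (aff x)).det ≠ 0)
    (r : Fin m) : lf (cp c) r (cp (aff x)) (yv c w x) = 0 := by
  have hD' : (((Mx c (aff x)).det : ℤ_[p]) : ℚ_[p]) ≠ 0 := cne hD
  have h := cp_lf c r (aff x) (yh c (aff x) w)
  rw [lf_yh, yh_yv c w x hD, lf_smul_r] at h
  have h2 : (((0 : ℤ_[p])) : ℚ_[p]) = 0 := by simp
  rw [h2] at h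
  exact (mul_eq_zero.1 h).resolve_left hD'

theorem cp_aff (x : V p (m + 1)) : cp (aff x) = (Fin.cons 1 (cst x) : I m → ℚ_[p]) := by
  funext i
  refine Fin.cases ?_ (fun i => ?_) i
  · simp [cp, aff]
  · simp [cp, aff, cst]

/-- The equation of the difference quotient. -/
theorem Mx_diff (c : Ix m → ℤ_[p]) (w : ℤ_[p]) (x x1 : V p (m + 1))
    (hD : (Mx c (aff x)).det ≠ 0) (hD1 : (Mx c (aff x1)).det ≠ 0) (a : ℚ_[p]) :
    (Mx (cp c) (cp (aff x1))).mulVec (a • (Yc c w x - Yc c w x1)) =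
      - fun r => lf (cp c) r (Fin.cons 0 (a • (cst x - cst x1))) (yv c w x) := by
  funext r
  have h0 := lf_yv c w x hD r
  have h1 := lf_yv c w x1 hD1 r
  have h2 : lf (cp c) r (cp (aff x1)) (yv c w x) =
      lf (cp c) r (cp (aff x)) (yv c w x) -
        lf (cp c) r (Fin.cons 0 (cst x - cst x1)) (yv c w x) := by
    have := lf_comb_l (cp c) r 1 (-1) (cp (aff x)) (Fin.cons 0 (cst x - cst x1)) (yv c w x)
    have e : (fun i => 1 * cp (aff x) i + -1 * (Fin.cons 0 (cst x - cst x1) : I m → ℚ_[p]) i) =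
        cp (aff x1) := by
      funext i
      rw [cp_aff, cp_aff]
      refine Fin.cases ?_ (fun i => ?_) i
      · simp
      · simp
    rw [e] at this
    rw [this]
    ring
  have h3 : lf (cp c) r (cp (aff x1)) (fun i => a * yv c w x i + (-a) * yv c w x1 i) =
      (Mx (cp c) (cp (aff x1))).mulVec (a • (Yc c w x - Yc c w x1)) r := by
    rw [lf_split]
    have e0 : a * yv c w x 0 + (-a) * yv c w x1 0 = 0 := by
      simp [yv]
    have e1 : a * yv c w x 1 + (-a) * yv c w x1 1 = 0 := by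
      have e2 : ∀ x : V p (m + 1), yv c w x 1 = w := fun x => rfl
      rw [e2, e2]
      ring
    simp only [e0, e1]
    have e2 : (fun b : Fin m => a * yv c w x b.succ.succ + (-a) * yv c w x1 b.succ.succ) =
        a • (Yc c w x - Yc c w x1) := by
      funext b
      simp only [yv, Fin.cons_succ, Pi.smul_apply, Pi.sub_apply, smul_eq_mul]
      ring
    rw [e2]
    ring
  have h4 : lf (cp c) r (Fin.cons 0 (a • (cst x - cst x1))) (yv c w x) =
      a * lf (cp c) r (Fin.cons 0 (cst x - cst x1)) (yv c w x) := by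
    rw [← lf_smul_l]
    congr 1
    funext i
    refine Fin.cases ?_ (fun i => ?_) i
    · simp
    · simp
  rw [← h3, lf_comb_r, h1, h2, h0, Pi.neg_apply, h4]
  ring

/-- The derivative of `Yc`. -/
noncomputable def La (c : Ix m → ℤ_[p]) (x1 : V p (m + 1)) (w : ℤ_[p]) :
    (Fin (m + 1) → ℚ_[p]) →ₗ[ℚ_[p]] (Fin m → ℚ_[p]) where
  toFun X := - ((Mx (cp c) (cp (aff x1)))⁻¹.mulVec
    fun r => lf (cp c) r (Fin.cons 0 X) (yv c w x1))
  map_add' X Y := by
    have h : (fun r => lf (cp c) r (Fin.cons 0 (X + Y)) (yv c w x1)) =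
        (fun r => lf (cp c) r (Fin.cons 0 X) (yv c w x1)) +
          fun r => lf (cp c) r (Fin.cons 0 Y) (yv c w x1) := by
      funext r
      have := lf_comb_l (cp c) r 1 1 (Fin.cons 0 X) (Fin.cons 0 Y) (yv c w x1)
      have e : (fun i => 1 * (Fin.cons 0 X : I m → ℚ_[p]) i +
          1 * (Fin.cons 0 Y : I m → ℚ_[p]) i) = Fin.cons 0 (X + Y) := by
        funext i
        refine Fin.cases ?_ (fun i => ?_) i
        · simp
        · simp
      rw [e] at this
      rw [this, Pi.add_apply]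
      ring
    rw [h, Matrix.mulVec_add, neg_add]
  map_smul' a X := by
    have h : (fun r => lf (cp c) r (Fin.cons 0 (a • X)) (yv c w x1)) =
        a • (fun r => lf (cp c) r (Fin.cons 0 X) (yv c w x1)) := by
      funext r
      rw [Pi.smul_apply, smul_eq_mul, ← lf_smul_l]
      congr 1
      funext i
      refine Fin.cases ?_ (fun i => ?_) i
      · simp
      · simp
    rw [h, Matrix.mulVec_smul, RingHom.id_apply, smul_neg]

theorem La_apply (c : Ix m → ℤ_[p]) (x1 : V p (m + 1)) (w : ℤ_[p]) (X : Fin (m + 1) → ℚ_[p]) :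
    La c x1 w X = - ((Mx (cp c) (cp (aff x1)))⁻¹.mulVec
      fun r => lf (cp c) r (Fin.cons 0 X)
        (Fin.cons 1 (Fin.cons (w : ℚ_[p]) (Yc c w x1)))) := rfl

theorem diff_eq (c : Ix m → ℤ_[p]) (w : ℤ_[p]) (x x1 : V p (m + 1))
    (hD : (Mx c (aff x)).det ≠ 0) (hD1 : (Mx c (aff x1)).det ≠ 0) (a : ℚ_[p]) :
    a • (Yc c w x - Yc c w x1) = - ((Mx (cp c) (cp (aff x1)))⁻¹.mulVec
      fun r => lf (cp c) r (Fin.cons 0 (a • (cst x - cst x1))) (yv c w x)) := by
  have h := Mx_diff c w x x1 hD hD1 a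
  have hu : IsUnit (Mx (cp c) (cp (aff x1))).det := by
    rw [det_cp_Mx, isUnit_iff_ne_zero]
    exact cne hD1
  have h2 := congrArg (Mx (cp c) (cp (aff x1)))⁻¹.mulVec h
  rw [Matrix.mulVec_mulVec, Matrix.nonsing_inv_mul _ hu, Matrix.one_mulVec,
    Matrix.mulVec_neg] at h2
  exact h2

/-- The limit of the points. -/
theorem tendsto_of_quot (x1 : V p (m + 1)) (al : ℕ → ℚ_[p]) (hal : ∀ N, al N ≠ 0)
    (hal0 : Tendsto al atTop (𝓝 0)) (X : ℕ → V p (m + 1)) (Y : Fin (m + 1) → ℚ_[p])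
    (h : Tendsto (fun N => (al N)⁻¹ • (cst (X N) - cst x1)) atTop (𝓝 Y)) :
    Tendsto X atTop (𝓝 x1) := by
  have h1 : Tendsto (fun N => cst (X N) - cst x1) atTop (𝓝 (0 : Fin (m + 1) → ℚ_[p])) := by
    have := hal0.smul h
    rw [zero_smul] at this
    refine this.congr (fun N => ?_)
    rw [smul_smul, mul_inv_cancel₀ (hal N), one_smul]
  rw [tendsto_iff_norm_sub_tendsto_zero]
  have h2 := h1.norm
  rw [norm_zero] at h2
  refine squeeze_zero (fun N => norm_nonneg _) (fun N => ?_) h2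
  refine (pi_norm_le_iff_of_nonneg (norm_nonneg _)).2 (fun i => ?_)
  have h3 := norm_le_pi_norm (cst (X N) - cst x1) i
  have h4 : (cst (X N) - cst x1) i = ((((X N - x1) i : ℤ_[p])) : ℚ_[p]) := by
    simp [cst]
  rw [h4] at h3
  exact h3

theorem cont_aff : Continuous fun x : V p (m + 1) => aff x := by
  refine continuous_pi fun i => ?_
  refine Fin.cases ?_ (fun i => ?_) i
  · exact continuous_const
  · exact continuous_apply i

theorem cont_lf {S : Type*} [CommRing S] [TopologicalSpace S] [IsTopologicalRing S]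
    (c : Ix m → S) (r : Fin m) : Continuous fun q : (I m → S) × (I m → S) => lf c r q.1 q.2 := by
  unfold lf
  fun_prop

theorem tendsto_lf {S : Type*} [CommRing S] [TopologicalSpace S] [IsTopologicalRing S]
    (c : Ix m → S) (r : Fin m) {u v : ℕ → I m → S} {u0 v0 : I m → S}
    (hu : Tendsto u atTop (𝓝 u0)) (hv : Tendsto v atTop (𝓝 v0)) :
    Tendsto (fun N => lf c r (u N) (v N)) atTop (𝓝 (lf c r u0 v0)) := by
  have h := ((cont_lf c r).tendsto (u0, v0)).comp (hu.prodMk_nhds hv)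
  exact h

theorem cont_Mx {S : Type*} [CommRing S] [TopologicalSpace S] [IsTopologicalRing S]
    (c : Ix m → S) : Continuous fun x : I m → S => Mx c x := by
  refine continuous_matrix fun r b => ?_
  exact (cont_lf c r).comp (continuous_id.prodMk continuous_const)

theorem cont_Yc (c : Ix m → ℤ_[p]) (w : ℤ_[p]) (x1 : V p (m + 1))
    (hD1 : (Mx c (aff x1)).det ≠ 0) : ContinuousAt (Yc c w) x1 := by
  have hco : Continuous (fun a : ℤ_[p] => (a : ℚ_[p])) := continuous_subtype_val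
  have hM : Continuous fun x : V p (m + 1) => Mx c (aff x) := (cont_Mx c).comp cont_aff
  have hdet : Continuous fun x : V p (m + 1) => (Mx c (aff x)).det := hM.matrix_det
  refine continuousAt_pi.2 fun s => ?_
  refine ContinuousAt.div ?_ (hco.comp hdet).continuousAt (cne hD1)
  refine (hco.comp ?_).continuousAt
  have hv : ∀ j : I m, Continuous fun x : V p (m + 1) =>
      ((Mx c (aff x)).adjugate.mulVec fun r => lf c r (aff x) (Pi.single j 1)) s := by
    intro j
    have h2 : Continuous fun x : V p (m + 1) =>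
        (Mx c (aff x)).adjugate.mulVec fun r => lf c r (aff x) (Pi.single j 1) := by
      refine Continuous.matrix_mulVec hM.matrix_adjugate ?_
      refine continuous_pi fun r => ?_
      exact (cont_lf c r).comp (cont_aff.prodMk continuous_const)
    exact (continuous_apply s).comp h2
  have h3 : (fun x : V p (m + 1) => yh c (aff x) w s.succ.succ) = fun x =>
      - ((Mx c (aff x)).adjugate.mulVec fun r => lf c r (aff x) (Pi.single 0 1)) s +
        w * - ((Mx c (aff x)).adjugate.mulVec fun r => lf c r (aff x) (Pi.single 1 1)) s := rfl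
  rw [h3]
  exact (hv 0).neg.add (continuous_const.mul (hv 1).neg)

/-- The derivative of `Yc` along a sequence. -/
theorem hder (c : Ix m → ℤ_[p]) (w : ℤ_[p]) (x1 : V p (m + 1))
    (hD1 : (Mx c (aff x1)).det ≠ 0) (al : ℕ → ℚ_[p]) (hal : ∀ N, al N ≠ 0)
    (hal0 : Tendsto al atTop (𝓝 0)) (X : ℕ → V p (m + 1)) (Y : Fin (m + 1) → ℚ_[p])
    (h : Tendsto (fun N => (al N)⁻¹ • (cst (X N) - cst x1)) atTop (𝓝 Y)) :
    Tendsto (fun N => (al N)⁻¹ • (Yc c w (X N) - Yc c w x1)) atTop (𝓝 (La c x1 w Y)) := by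
  have hX := tendsto_of_quot x1 al hal hal0 X Y h
  have hY := (cont_Yc c w x1 hD1).tendsto.comp hX
  have hdet : Continuous fun x : V p (m + 1) => (Mx c (aff x)).det :=
    ((cont_Mx c).comp cont_aff).matrix_det
  have hev : ∀ᶠ N in atTop, (Mx c (aff (X N))).det ≠ 0 :=
    (hdet.continuousAt.tendsto.comp hX).eventually_ne hD1
  have hyv : Tendsto (fun N => yv c w (X N)) atTop (𝓝 (yv c w x1)) := by
    refine tendsto_pi_nhds.2 fun i => ?_
    refine Fin.cases ?_ (fun i => ?_) i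
    · exact tendsto_const_nhds
    refine Fin.cases ?_ (fun i => ?_) i
    · exact tendsto_const_nhds
    · exact (tendsto_pi_nhds.1 hY i)
  have hcons : Tendsto (fun N => (Fin.cons 0 ((al N)⁻¹ • (cst (X N) - cst x1)) : I m → ℚ_[p]))
      atTop (𝓝 (Fin.cons 0 Y)) := by
    refine tendsto_pi_nhds.2 fun i => ?_
    refine Fin.cases ?_ (fun i => ?_) i
    · exact tendsto_const_nhds
    · exact (tendsto_pi_nhds.1 h i)
  have hlf : Tendsto (fun N => fun r => lf (cp c) r
      (Fin.cons 0 ((al N)⁻¹ • (cst (X N) - cst x1))) (yv c w (X N))) atTop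
      (𝓝 fun r => lf (cp c) r (Fin.cons 0 Y) (yv c w x1)) := by
    refine tendsto_pi_nhds.2 fun r => ?_
    exact tendsto_lf (cp c) r hcons hyv
  have hmv : Continuous fun v : Fin m → ℚ_[p] =>
      - ((Mx (cp c) (cp (aff x1)))⁻¹.mulVec v) :=
    (Continuous.matrix_mulVec continuous_const continuous_id).neg
  have hfin := (hmv.tendsto _).comp hlf
  refine Tendsto.congr' ?_ hfin
  filter_upwards [hev] with N hN
  rw [diff_eq c w (X N) x1 hN hD1 (al N)⁻¹]
  rfl

/-- The derivative is onto on the kernel of a form which does not vanish at the direction of the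
line over `y`. -/
theorem hsurj (c : Ix m → ℤ_[p]) (w : ℤ_[p]) (x1 : V p (m + 1))
    (hD1 : (Mx c (aff x1)).det ≠ 0) (hN : (Nx c (yh c (aff x1) w)).det ≠ 0)
    (f : (Fin (m + 1) → ℚ_[p]) →ₗ[ℚ_[p]] ℚ_[p])
    (hf : f (cst (vh c (yh c (aff x1) w))) ≠ 0) (η : Fin m → ℚ_[p]) :
    ∃ X, f X = 0 ∧ La c x1 w X = η := by
  have hD' : (((Mx c (aff x1)).det : ℤ_[p]) : ℚ_[p]) ≠ 0 := cne hD1
  set y := yv c w x1 with hy
  have hNy : (Nx (cp c) y).det ≠ 0 := by
    intro h0
    apply hN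
    have h1 := det_cp_Nx c (yh c (aff x1) w)
    rw [yh_yv c w x1 hD1, Nx_smul, Matrix.det_smul, ← hy, h0, mul_zero] at h1
    exact Subtype.ext h1.symm
  have hu : IsUnit (Nx (cp c) y).det := isUnit_iff_ne_zero.2 hNy
  have huM : IsUnit (Mx (cp c) (cp (aff x1))).det := by
    rw [det_cp_Mx, isUnit_iff_ne_zero]
    exact hD'
  -- the direction of the line over `y`
  have hv : La c x1 w (cst (vh c (yh c (aff x1) w))) = 0 := by
    rw [La_apply]
    have h1 : (fun r => lf (cp c) r (Fin.cons 0 (cst (vh c (yh c (aff x1) w))))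
        (Fin.cons 1 (Fin.cons (w : ℚ_[p]) (Yc c w x1)))) = 0 := by
      funext r
      change lf (cp c) r (Fin.cons 0 (cst (vh c (yh c (aff x1) w)))) y = 0
      have h2 := cp_lf c r (xh c (yh c (aff x1) w)) (yh c (aff x1) w)
      have h3 : (((0 : ℤ_[p])) : ℚ_[p]) = 0 := by simp
      rw [lf_xh, h3, yh_yv c w x1 hD1, lf_smul_r] at h2
      have h4 := (mul_eq_zero.1 h2).resolve_left hD'
      have h5 : cp (xh c (yh c (aff x1) w)) =
          (Fin.cons 0 (cst (vh c (yh c (aff x1) w))) : I m → ℚ_[p]) := by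
        funext i
        refine Fin.cases ?_ (fun i => ?_) i
        · simp [cp, xh]
        · simp [cp, xh, cst]
      rw [h5] at h4
      exact h4
    rw [h1, Matrix.mulVec_zero, neg_zero]
  -- a preimage
  set g : Fin m → ℚ_[p] := (Nx (cp c) y)⁻¹.mulVec
    (- (Mx (cp c) (cp (aff x1))).mulVec η) with hg
  have hX : La c x1 w (Fin.snoc g 0 : Fin (m + 1) → ℚ_[p]) = η := by
    rw [La_apply]
    have h1 : (fun r => lf (cp c) r (Fin.cons 0 (Fin.snoc g 0 : Fin (m + 1) → ℚ_[p]))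
        (Fin.cons 1 (Fin.cons (w : ℚ_[p]) (Yc c w x1)))) =
        - (Mx (cp c) (cp (aff x1))).mulVec η := by
      funext r
      change lf (cp c) r (Fin.cons 0 (Fin.snoc g 0 : Fin (m + 1) → ℚ_[p])) y = _
      rw [lf_split_l]
      have e1 : (fun b : Fin m => (Fin.cons 0 (Fin.snoc g 0 : Fin (m + 1) → ℚ_[p]) :
          I m → ℚ_[p]) b.castSucc.succ) = g := by
        funext b
        rw [Fin.cons_succ, Fin.snoc_castSucc]
      have e2 : (Fin.cons 0 (Fin.snoc g 0 : Fin (m + 1) → ℚ_[p]) : I m → ℚ_[p])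
          (Fin.last (m + 1)) = 0 := by
        rw [← Fin.succ_last, Fin.cons_succ, Fin.snoc_last]
      have e3 : (Nx (cp c) y).mulVec g = - (Mx (cp c) (cp (aff x1))).mulVec η := by
        rw [hg, Matrix.mulVec_mulVec, Matrix.mul_nonsing_inv _ hu, Matrix.one_mulVec]
      rw [e1, e2, e3, Fin.cons_zero]
      ring
    rw [h1, Matrix.mulVec_neg, neg_neg, Matrix.mulVec_mulVec, Matrix.nonsing_inv_mul _ huM,
      Matrix.one_mulVec]
  refine ⟨(Fin.snoc g 0 : Fin (m + 1) → ℚ_[p]) -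
    (f (Fin.snoc g 0 : Fin (m + 1) → ℚ_[p]) / f (cst (vh c (yh c (aff x1) w)))) •
      cst (vh c (yh c (aff x1) w)), ?_, ?_⟩
  · rw [map_sub, map_smul, smul_eq_mul]
    field_simp
    ring
  · rw [map_sub, map_smul, hX, hv, smul_zero, sub_zero]

end Pool.Agent.Helper57.XA
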