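import Pool.Agent.Helper57.XA.Yc

/-!
The statements of `Yc` in the form of the assembly (project XN, MP_9410e4).
-/

set_option autoImplicit false

namespace Pool.Agent.Helper57.XA.Fit

open Pool.Agent.Helper28.HN Pool.Agent.Helper24.HN Filter Topology

variable {p : ℕ} [Fact p.Prime] {m : ℕ}

theorem hder (c : Ix m → ℤ_[p]) (x1 : V p (m + 1)) (w : ℤ_[p]) (hD : IsUnit (Mx c (aff x1)).det)
    (al : ℕ → ℚ_[p]) (hal : ∀ N, al N ≠ 0) (hal0 : Tendsto al atTop (𝓝 0)) (X : ℕ → V p (m + 1))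
    (Y : Fin (m + 1) → ℚ_[p])
    (h : Tendsto (fun N => (al N)⁻¹ • (cst (X N) - cst x1)) atTop (𝓝 Y)) :
    Tendsto (fun N => (al N)⁻¹ • (Yc c w (X N) - Yc c w x1)) atTop (𝓝 (La c x1 w Y)) :=
  Pool.Agent.Helper57.XA.hder c w x1 hD.ne_zero al hal hal0 X Y h

theorem hsurj (c : Ix m → ℤ_[p]) (x1 : V p (m + 1)) (w : ℤ_[p]) (hD : IsUnit (Mx c (aff x1)).det)
    (hN : (Nx c (yh c (aff x1) w)).det ≠ 0) (f : (Fin (m + 1) → ℚ_[p]) →ₗ[ℚ_[p]] ℚ_[p])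
    (hf : f (cst (vh c (yh c (aff x1) w))) ≠ 0) (η : Fin m → ℚ_[p]) :
    ∃ X, f X = 0 ∧ La c x1 w X = η :=
  Pool.Agent.Helper57.XA.hsurj c w x1 hD.ne_zero hN f hf η

theorem yh_eq (c : Ix m → ℤ_[p]) (x : V p (m + 1)) (w : ℤ_[p]) (hD : (Mx c (aff x)).det ≠ 0) :
    cp (yh c (aff x) w) = fun a => (((Mx c (aff x)).det : ℤ_[p]) : ℚ_[p]) *
      aff (Fin.cons (w : ℚ_[p]) (Yc c w x) : Fin (m + 1) → ℚ_[p]) a :=
  yh_yv c w x hD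

end Pool.Agent.Helper57.XA.Fit
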